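import Pool.Agent.H756QS.KSchur

/-!
# Lipschitz-free spaces over uniformly separated metric spaces have the quantitative Schur property

For every uniformly separated metric space `M` (bounded or not) and for real as well as complex
scalars, the Lipschitz-free space `F(M)` has the `3200`-Schur property; the constant does not
depend on `M`.
-/

set_option autoImplicit false

namespace Pool.Agent.Results.MP_d136d9_an.SchurProperty

open Pool.Agent.H756QS

/-- `X` has the `c`-Schur property: `ca(x_n) ≤ c δ(x_n)` for every bounded sequence. -/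
def IsSchur (𝕜 : Type) [RCLike 𝕜] (c : ℝ) (X : Type) [NormedAddCommGroup X]
    [NormedSpace 𝕜 X] : Prop :=
  ∀ x : ℕ → X, Bornology.IsBounded (Set.range x) → caK x ≤ c * deltaK 𝕜 x

theorem result (𝕜 : Type) [RCLike 𝕜] (M : Type) [MetricSpace M] (o : M)
    (hM : ∃ ε : ℝ, 0 < ε ∧ ∀ x y : M, x ≠ y → ε ≤ dist x y) :
    IsSchur 𝕜 3200 (FreeK 𝕜 M o) := by
  obtain ⟨ε, hε, hsep⟩ := hM
  exact fun x hx => schurK o ε hε hsep x hx

end Pool.Agent.Results.MP_d136d9_an.SchurProperty
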