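import Pool.Agent.H756QS.KSchur

/-!
# Lipschitz-free spaces over uniformly separated metric spaces are quantitatively
weakly sequentially complete

For every uniformly separated metric space `M` (bounded or not) and for real as well as complex
scalars, the Lipschitz-free space `F(M)` is `3200`-weakly sequentially complete; the constant does
not depend on `M`.

Idea of the proof. One shows that a bounded sequence of `F(M)` is `r`-Cauchy eventually as soon as
`3200 δ < r`. The complex case reduces to the real one by real and imaginary parts. In the real
case let `(v_n)` be differences of terms of the sequence with `‖v_n‖ ≥ κ` which are almost weakly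
null, and let `f_n` be 1-Lipschitz norming functions. Along an ultrafilter `f_n` converges
pointwise to some `f`; the positive or the negative part `h_n` of `f_n - f` still catches a fixed
part of `v_n`. Cones of slope `40` over the support of `v_n` with heights given by `h_n` are
40-Lipschitz functions, and after passing to a sparse subsequence the later measures charge the
supports of the earlier cones little (at each dyadic scale these supports are disjoint along a
subsequence), unless the mass of `v_n` escapes to infinity, in which case the scales are separated.
The supremum of such cones is a single Lipschitz function on which all `v_n` of a subsequence are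
bounded below by a fixed fraction of `κ`.
-/

set_option autoImplicit false

namespace Pool.Agent.Results.MP_d136d9_an.WeakSeqComplete

open Pool.Agent.H756QS

/-- `X` is `c`-weakly sequentially complete: `wck(x_n) ≤ c δ(x_n)` for every bounded sequence. -/
def IsWsc (𝕜 : Type) [RCLike 𝕜] (c : ℝ) (X : Type) [NormedAddCommGroup X]
    [NormedSpace 𝕜 X] : Prop :=
  ∀ x : ℕ → X, Bornology.IsBounded (Set.range x) → wckK 𝕜 x ≤ c * deltaK 𝕜 x

theorem result (𝕜 : Type) [RCLike 𝕜] (M : Type) [MetricSpace M] (o : M)
    (hM : ∃ ε : ℝ, 0 < ε ∧ ∀ x y : M, x ≠ y → ε ≤ dist x y) :
    IsWsc 𝕜 3200 (FreeK 𝕜 M o) := by
  obtain ⟨ε, hε, hsep⟩ := hM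
  exact fun x hx => wscK o ε hε hsep x hx

end Pool.Agent.Results.MP_d136d9_an.WeakSeqComplete
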